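import Pool.Agent.R531.Spl.Pfun

set_option autoImplicit false

/-!
# Dynamic optimality of splaying: one tree is enough, additive terms are irrelevant

`Tr`, `keys`, `IsBST`, `dep`, `splay`, `costSplay` are those of `Pool.Agent.H581R2.SplayDef`; `RotN e T T'`
(`e` rotations anywhere lead from `T` to `T'`), `Exec T X c` (there is an execution of cost `c` for the
requests `X` with initial tree `T`: a request costs one plus the depth of the key, a rotation costs
one) and `optAny K X` (the least cost of an execution over all initial search trees with the keys `K`)
are those of `Pool.Agent.TH49.Spl.Defs`. `opt T X` (`Pool.Agent.Y395.SP.Stm`) is the least cost of an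
execution with initial tree `T`. `runS T X` (`Pool.Agent.TH49.Spl.Win`) is the tree after splaying the
requests `X`, starting with `T`. `ExecE T X T' c` (`Pool.Agent.R531.Spl.ExE`): an execution as above with
the final tree `T'`. `Ctx` (`Pool.Agent.Y395.SP.Stm`): a tree with a marked top part, `erase C` the tree,
`msize C` the number of marked nodes, `fl C` the marked keys and the hanging subtrees in symmetric order.

(1) Let `T`, `T'` be search trees, `T'` with at most as many keys as `T`. If splaying from `T` is within
the factor `c` of the optimum up to SOME additive constant, then splaying from `T'` is within the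
factor `140 c` of the optimum, with NO additive term, and within the factor `c` up to an additive
constant (if `T` has at least 4 keys). The keys and the shapes of the trees do not matter.

(2) The following are equivalent. `DynOpt` is Q1. `WeakOpt`: the same up to additive terms, for ONE
initial tree of each of infinitely many sizes. `TextOpt`: the textbook form with the optimum over all
initial trees and additive terms depending on the tree. `SubOpt`: the subsequence property for all
trees. `WeakSub`: up to additive terms, for ONE initial tree of each of infinitely many sizes.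
`ClosedOpt`: for request sequences such that splaying returns to the initial tree, against executions
which return to the initial tree, for one initial tree of each of infinitely many sizes. `PotWeak`: for
one key set of each of infinitely many sizes there is some nonnegative potential function of pairs of
search trees. `PotStrong`: there is a potential function of pairs of search trees which vanishes if the
trees are equal, and is at most `138 c s` if they differ only in a top part with `s ≥ 4` nodes.

(3) If Q1 fails, it fails for every initial tree which is large enough, and forever: for every `c`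
every search tree with sufficiently many keys has a sequence `Z` such that splaying the `k`-fold
repetition of `Z` costs exactly `k s`, and there are executions of cost at most `k D`, with `s > c D`.

Proof. Let `U` be the union of the search paths of the requested keys in the initial tree `T`, with `u`
nodes; splaying only rearranges `U`, every execution costs at least `u`. Every rearrangement of `u`
nodes at the top of the tree is a product of at most `6 u` moves (rotation at the root; rotation of the
left edge below the right child of the root, or back), and if `u ≥ 4` every move is realised by splaying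
at most four of these nodes, at cost at most 11. So after serving `X` one can return to `T` at cost
`66 u` of splaying, and a round costs at most `140 OPT`. Repeating this round beats every additive
term. Similarly one can lead splaying from `T` to any other tree with the same keys.
-/

namespace Pool.Agent.Results.MP_c42954_lc.AdditiveTerms

open Pool.Agent.H581R2.Splay Pool.Agent.TH49.Spl Pool.Agent.Y395.SP Pool.Agent.R531.Spl

/-- splaying from `T` is within the factor `c` of the optimum, up to the additive term `B` -/
def Within (T : Tr) (c B : ℝ) : Prop :=
  ∀ X : List ℕ, (∀ x ∈ X, x ∈ keys T) → (costSplay T X : ℝ) ≤ c * opt T X + B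

/-- Q1 -/
def DynOpt : Prop := ∃ c : ℕ, ∀ T : Tr, IsBST T → ∀ X : List ℕ, (∀ x ∈ X, x ∈ keys T) →
  costSplay T X ≤ c * opt T X

/-- up to additive terms, for one initial tree of each of infinitely many sizes -/
def WeakOpt : Prop := ∃ c : ℕ, ∀ N : ℕ, ∃ T : Tr, IsBST T ∧ N ≤ (keys T).length ∧ ∃ B : ℕ,
  ∀ X : List ℕ, (∀ x ∈ X, x ∈ keys T) → costSplay T X ≤ c * opt T X + B

/-- with the optimum over all initial trees and additive terms -/
def TextOpt : Prop := ∃ c : ℕ, ∀ T : Tr, IsBST T → ∃ B : ℕ, ∀ X : List ℕ,
  (∀ x ∈ X, x ∈ keys T) → costSplay T X ≤ c * optAny (keys T) X + B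

/-- the subsequence property -/
def SubOpt : Prop := ∃ c : ℕ, ∀ T : Tr, IsBST T → ∀ Z X : List ℕ, (∀ z ∈ Z, z ∈ keys T) →
  X.Sublist Z → costSplay T X ≤ c * costSplay T Z

/-- the subsequence property up to additive terms, for one initial tree of each of infinitely many
sizes -/
def WeakSub : Prop := ∃ c : ℕ, ∀ N : ℕ, ∃ T : Tr, IsBST T ∧ N ≤ (keys T).length ∧ ∃ B : ℕ,
  ∀ Z X : List ℕ, (∀ z ∈ Z, z ∈ keys T) → X.Sublist Z → costSplay T X ≤ c * costSplay T Z + B

/-- closed sequences against closed executions, for one initial tree of each of infinitely many
sizes -/
def ClosedOpt : Prop := ∃ c : ℕ, ∀ N : ℕ, ∃ T : Tr, IsBST T ∧ N ≤ (keys T).length ∧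
  ∀ (Z : List ℕ) (D : ℕ), (∀ z ∈ Z, z ∈ keys T) → runS T Z = T → ExecE T Z T D →
    costSplay T Z ≤ c * D

/-- some potential function, for one key set of each of infinitely many sizes -/
def PotWeak : Prop := ∃ c : ℕ, ∀ N : ℕ, ∃ K : List ℕ, K.Pairwise (· < ·) ∧ N ≤ K.length ∧
  ∃ Φ : Tr → Tr → ℝ, (∀ S O, 0 ≤ Φ S O) ∧
    ∀ (S O O' : Tr) (x e : ℕ), keys S = K → keys O = K → x ∈ K → RotN e O O' →
      (1 + dep x S : ℝ) + Φ (splay x S) O' ≤ c * (1 + e + dep x O) + Φ S O

/-- a potential function which vanishes on the diagonal and is linear in the size of the top part in
which the trees differ -/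
def PotStrong : Prop := ∃ c : ℕ, ∃ Φ : Tr → Tr → ℕ,
  (∀ T, IsBST T → Φ T T = 0) ∧
  (∀ (S O O' : Tr) (x e : ℕ), IsBST S → keys O = keys S → x ∈ keys S → RotN e O O' →
      1 + dep x S + Φ (splay x S) O' ≤ c * (1 + e + dep x O) + Φ S O) ∧
  ∀ C C' : Ctx, fl C = fl C' → IsBST (erase C) → 4 ≤ msize C →
    Φ (erase C) (erase C') ≤ 138 * c * msize C

theorem result :
    -- (1) one tree is enough, additive terms are irrelevant
    (∀ T T' : Tr, IsBST T → IsBST T' → (keys T').length ≤ (keys T).length → ∀ c B : ℝ,
      Within T c B →
        Within T' (140 * c) 0 ∧ (4 ≤ (keys T).length → ∃ B' : ℝ, Within T' c B')) ∧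
    -- (2) equivalent forms of Q1
    List.TFAE [DynOpt, WeakOpt, TextOpt, SubOpt, WeakSub, ClosedOpt, PotWeak, PotStrong] ∧
    -- (3) if Q1 fails
    (¬ DynOpt → ∀ c : ℕ, ∃ N : ℕ, ∀ T : Tr, IsBST T → N ≤ (keys T).length →
      ∃ (Z : List ℕ) (s D : ℕ), (∀ z ∈ Z, z ∈ keys T) ∧ c * D < s ∧
        ∀ k : ℕ, costSplay T (List.replicate k Z).flatten = k * s ∧
          opt T (List.replicate k Z).flatten ≤ k * D) := by
  refine ⟨?_, R531.Spl.tfae, fun h c => R531.Spl.failure h c⟩
  intro T T' hb hb' hk c B h
  refine ⟨fun X hX => ?_, fun hn => R531.Spl.transferAdd hb hb' hk hn h⟩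
  have := R531.Spl.transfer hb hb' hk h hX
  linarith

end Pool.Agent.Results.MP_c42954_lc.AdditiveTerms
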