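import Pool.Agent.R581.SplayLB2

set_option autoImplicit false

/-!
# Splay trees: the constant of dynamic optimality is at least 13/4

`Tr`, `keys`, `IsBST`, `dep`, `splay`, `costSplay` are those of `Pool.Agent.H581R2.SplayDef`; `Exec T X c`
(`Pool.Agent.TH49.Spl.Defs`): there is an execution of cost `c` for the requests `X` with initial tree
`T` (a request costs one plus the depth of the key, a rotation anywhere costs one). `opt T X` is the least
cost of an execution and `statCost S X` the cost of the requests in the static tree `S` (in
`Pool.Agent.R581.SplayLB2`).

(1) For every `c < 13/4` there are a search tree `T` and an infinite sequence `f` of requests such that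
for every additive constant `B` some initial part `X` of `f` has
`costSplay T X > c * opt T X + B`. So a constant as in the dynamic optimality conjecture is at least
`13/4`, even if an additive term depending on the number of keys is allowed. Moreover
`costSplay T X > c * (cost of X in a static tree S) + B`, where `S` depends only on `c`: the constant of
the static optimality theorem is at least `13/4` as well.

(2) For every `k` there are a search tree with `n = 2^(k+1) - 1` keys and an infinite sequence of
requests, each of which costs splaying exactly `2 k + 1 = 2 log₂ (n + 1) - 1`.

Proof. Let `c` be a full binary tree with a key at every node, the keys of the leaves are requested.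
Every inner node alternates between its left and right part. For every state of the alternations
there is a search tree such that the next requested key has twice the depth of its leaf in `c`, and
splaying leads to the search tree of the next state: if the last request of `L` and `R` (around the
inner node `b`) was in `L`, whose search tree is `x(A, B)`, and `T` is the search tree of `R`, take
`x(A, b(B, T))`; symmetrically if it was in `R`. The levels of the leaves satisfy the Kraft equality,
so splaying costs `2 H + 1` per request, `H` the entropy of the frequencies. For (1) take the trees
`D (k + 1) = ((D k, leaf), D k)` and the static tree with this leaf at the root: `H = 6 - 6 (3/4)^k`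
and the static cost is `4 - 3 (3/4)^k`.
-/

namespace Pool.Agent.Results.MP_c42954_lc.CompetitiveConstant

open Pool.Agent.H581R2.Splay Pool.Agent.R581.SplayLB

theorem result :
    (∀ c : ℝ, c < 13 / 4 → ∃ (S T : Tr) (f : ℕ → ℕ), IsBST T ∧ keys S = keys T ∧
      (∀ i, f i ∈ keys T) ∧ ∀ B : ℝ, ∃ m : ℕ,
        c * (opt T ((List.range m).map f) : ℝ) + B < costSplay T ((List.range m).map f) ∧
        c * (statCost S ((List.range m).map f) : ℝ) + B < costSplay T ((List.range m).map f)) ∧
    ∀ k : ℕ, ∃ (T : Tr) (f : ℕ → ℕ), IsBST T ∧ (keys T).length + 1 = 2 ^ (k + 1) ∧
      (∀ i, f i ∈ keys T) ∧ ∀ m : ℕ, costSplay T ((List.range m).map f) = (2 * k + 1) * m :=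
  ⟨main, uniform⟩

end Pool.Agent.Results.MP_c42954_lc.CompetitiveConstant
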