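import Pool.Agent.R531.Spl.RW

set_option autoImplicit false

/-!
# Dynamic optimality of splaying is a statement about the roots along walks in the rotation graph

`Tr`, `keys`, `IsBST`, `dep`, `splay`, `costSplay` are those of `Pool.Agent.H581R2.SplayDef`; `opt T X`
(`Pool.Agent.Y395.SP.Stm`, with `Exec` of `Pool.Agent.TH49.Spl.Defs`) is the least cost of an execution
for the requests `X` with initial tree `T` (a request costs one plus the depth of the key, a rotation
anywhere costs one). `RotAt`, `Walk`, `Rp` are those of `Pool.Agent.R531.Spl.Walk`:

* `Walk d T Y`: there are trees `T = T_0, T_1, …, T_m` such that each one is equal to the preceding one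
  or obtained from it by one rotation, which moves a node of depth at most `d` above its parent, and
  `Y` lists the root keys of `T_1, …, T_m` (so `m` is the length of `Y`);
* `Rp ρ X Y`: `Y` arises from `X` by inserting repetitions of the preceding key (of `ρ` before the
  first key).

(1) Walks of depth 1: splaying the roots costs at most 24 per step, for every initial tree.

(2) Walks of depth 3 decide everything: if for ONE initial tree `T` splaying the roots of the walks of
depth at most 3 from `T` costs at most `c` per step up to SOME additive constant, then for all search
trees `T'` with at most as many keys and all request sequences `X` splaying costs at most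
`3500 c OPT(X, T')`, with no additive term.

(3) The following are equivalent: Q1; splaying the roots of every walk in the rotation graph (from every
search tree, rotations anywhere) costs `O(length)`; the same for walks of depth at most 3, for one
initial tree of each of infinitely many sizes, up to additive constants. So Q1 is a statement without
an optimum: all steps of the competitor cost at most 3, and its requests are requests of the root.

(4) `OPT` and walks: for `T` with root `ρ` and every `X` there is a walk of depth at most 3 from `T`, of
length at most `12 + 25 OPT(X, T)`, whose root sequence is `X` up to repetitions, and splaying it costs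
the same as splaying `X` plus one for each repetition; and if `X` is a subsequence of the root sequence
of a walk of length `m`, then `OPT(X, T) ≤ 6 m`.

Proof. Splaying the root again costs one and does not change the tree. An execution can be made lazy:
before each request a part of `q` nodes at the top, which contains the requested key, is rearranged, and
the sum of the `q` is at most `OPT`. Keep the last requested key `ρ` at the root, by rearranging the
top part of the last request; the union of two consecutive parts is again a top part of the lazy
tree. With `O(q)` rotations of depth at most 3, which do not touch the root `ρ` and during which `ρ` is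
requested repeatedly, the next key is moved to depth 1; then rotate it to the root, and request it
repeatedly while the tree below is rearranged. (1) is the theorem on itineraries (a pointer which moves
along an edge and rotates it); (2) and (3) use that additive terms are irrelevant.
-/

namespace Pool.Agent.Results.MP_c42954_lc.RootWalks

open Pool.Agent.H581R2.Splay Pool.Agent.TH49.Spl Pool.Agent.R531.Spl
open Pool.Agent.Y395.SP (opt)

/-- Q1 -/
def DynOpt : Prop := ∃ c : ℕ, ∀ T : Tr, IsBST T → ∀ X : List ℕ, (∀ x ∈ X, x ∈ keys T) →
  costSplay T X ≤ c * opt T X

/-- splaying the roots along every walk is linear -/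
def RootWalk : Prop := ∃ c : ℕ, ∀ (d : ℕ) (T : Tr), IsBST T → ∀ Y : List ℕ, Walk d T Y →
  costSplay T Y ≤ c * Y.length

/-- the same for walks of depth at most 3, for one initial tree of each of infinitely many sizes, up to
additive terms -/
def RootWalkWeak : Prop := ∃ c : ℕ, ∀ N : ℕ, ∃ T : Tr, IsBST T ∧ N ≤ (keys T).length ∧ ∃ B : ℕ,
  ∀ Y : List ℕ, Walk 3 T Y → costSplay T Y ≤ c * Y.length + B

theorem result :
    -- (1) walks of depth 1
    (∀ T : Tr, IsBST T → ∀ Y : List ℕ, Walk 1 T Y → costSplay T Y ≤ 24 * Y.length) ∧
    -- (2) one initial tree, walks of depth 3
    (∀ T T' : Tr, IsBST T → IsBST T' → (keys T').length ≤ (keys T).length → ∀ c B : ℝ, 0 ≤ c →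
      (∀ Y : List ℕ, Walk 3 T Y → (costSplay T Y : ℝ) ≤ c * Y.length + B) →
      ∀ X : List ℕ, (∀ x ∈ X, x ∈ keys T') → (costSplay T' X : ℝ) ≤ 3500 * c * opt T' X) ∧
    -- (3) equivalent forms of Q1
    List.TFAE [DynOpt, RootWalk, RootWalkWeak] ∧
    -- (4) the optimum and walks
    (∀ (ρ : ℕ) (l r : Tr), IsBST (Tr.node ρ l r) →
      ∀ X : List ℕ, (∀ x ∈ X, x ∈ keys (Tr.node ρ l r)) →
      ∃ Y : List ℕ, Walk 3 (Tr.node ρ l r) Y ∧ Rp ρ X Y ∧
        Y.length ≤ 12 + 25 * opt (Tr.node ρ l r) X ∧
        costSplay (Tr.node ρ l r) Y + X.length = costSplay (Tr.node ρ l r) X + Y.length) ∧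
    (∀ (d : ℕ) (T : Tr), IsBST T → ∀ X Y : List ℕ, Walk d T Y → X.Sublist Y →
      opt T X ≤ 6 * Y.length) := by
  refine ⟨fun T hb Y hY => R531.Spl.walk1 hb hY, ?_, R531.Spl.tfaeW, ?_, ?_⟩
  · intro T T' hb hb' hk c B hc h X hX
    exact R531.Spl.transferW hb hb' hk hc h hX
  · intro ρ l r hb X hX
    obtain ⟨Y, h1, h2, h3⟩ := R531.Spl.exists_walk hb hX
    exact ⟨Y, h1, h2, h3, h2.cost l r⟩
  · intro d T hb X Y h hs
    exact R531.Spl.opt_le_walk hb h hs

end Pool.Agent.Results.MP_c42954_lc.RootWalks
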