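import Pool.Agent.R531.Spl.Fin

set_option autoImplicit false

/-!
# Splaying without an additive term depending on the size of the tree

`Tr`, `keys`, `IsBST`, `dep`, `splay`, `costSplay` are those of `Pool.Agent.H581R2.SplayDef`; `Exec T X c`
(`Pool.Agent.TH49.Spl.Defs`): there is an execution of cost `c` for the requests `X` with initial tree
`T` (a request costs one plus the depth of the key, a rotation anywhere costs one). `opt T X`
(`Pool.Agent.Y395.SP.Stm`) is the least cost of an execution. `ancs E T` (`Pool.Agent.TH22.SP.Clos`) is
the number of nodes of `T` whose subtree contains a key of `E`, that is the size of the union of the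
search paths of the keys in `E ∩ keys T`. `wsum [] X` (`Pool.Agent.Y395.SP.Stm`) is the sum over the
requests of `log₂ (t + 1)`, where `t` is the number of distinct keys requested since the previous
request of the same key (since the start if there is none).

`T` is any search tree with any number `n` of keys, `X` any sequence of `m` requests, `k` the number of
DISTINCT requested keys and `u` the number of nodes of `T` on the search paths of the requested keys.

(1) Every execution for `X` from `T` costs at least `u`.

(2) `costSplay T X ≤ 4 (1 + log₂ k) opt T X`, with the same initial tree and without an additive term.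
In particular splaying is dynamically optimal, with a true constant, on the requests which use a
bounded number of distinct keys, whatever the tree; and the ratio is `O(log k)` rather than `O(log n)`.

(3) `costSplay T X ≤ 8 m + 6 wsum [] X + 6 k log₂ k + (2 + log₂ k) u`: the working set bound without
`n log n`.

(4) For all weights which are `0` or at least `1`, and at least `1` for the requested keys, with total
weight `W`: the cost is at most the sum of `2 + 3 log₂ (W / w x)` over the requests `x`, plus
`startUp w T`, the sum of `2 + log₂ (weight of the subtree)` over the nodes of `T` whose subtree has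
positive weight; and `startUp w T ≤ (2 + log₂ W) ancs E T` if `w` vanishes outside `E`.

Proof. In the potential of Sleator and Tarjan a node whose subtree contains no requested key has the
value 0, all others have the value 2 + log₂ (weight): creating such a node costs at most the extra 2,
which the steps of splaying can pay. For (1): a rotation changes the number of nodes which have a key
of `E` below them by at most one, and a request of `x` can pay for the search path of `x`.
-/

namespace Pool.Agent.Results.MP_c42954_lc.StartUpCost

open Pool.Agent.H581R2.Splay Pool.Agent.TH49.Spl Pool.Agent.Y395.SP Pool.Agent.TH22.SP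

/-- the weight of the keys of a tree -/
noncomputable def weight (w : ℕ → ℝ) (T : Tr) : ℝ := ((keys T).map w).sum

/-- the sum of `2 + log₂ (weight of the subtree)` over the nodes whose subtree has positive weight -/
noncomputable def startUp (w : ℕ → ℝ) : Tr → ℝ
  | Tr.nil => 0
  | Tr.node a l r =>
      (if 0 < weight w (Tr.node a l r) then 2 + Real.logb 2 (weight w (Tr.node a l r)) else 0) +
        startUp w l + startUp w r

theorem weight_eq (w : ℕ → ℝ) (T : Tr) : wt w T = weight w T := wt_eq w T

theorem startUp_eq (w : ℕ → ℝ) (T : Tr) : R531.Spl.P w T = startUp w T := by
  induction T with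
  | nil => rfl
  | node a l r ihl ihr =>
    simp only [R531.Spl.P, startUp, R531.Spl.g, weight_eq, ihl, ihr]

theorem result (T : Tr) (hT : IsBST T) (X : List ℕ) (hX : ∀ x ∈ X, x ∈ keys T) :
    -- (1) lower bound for all executions
    (∀ c, Exec T X c → ancs X.toFinset T ≤ c) ∧
    -- (2) the competitive ratio
    (costSplay T X : ℝ) ≤ 4 * (1 + Real.logb 2 X.toFinset.card) * opt T X ∧
    -- (3) the working set bound
    (costSplay T X : ℝ) ≤ 8 * X.length + 6 * wsum [] X +
      6 * (X.toFinset.card * Real.logb 2 X.toFinset.card) +
      (2 + Real.logb 2 X.toFinset.card) * ancs X.toFinset T ∧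
    -- (4) arbitrary weights
    ∀ w : ℕ → ℝ, (∀ a, w a = 0 ∨ 1 ≤ w a) → (∀ x ∈ X, 1 ≤ w x) →
      (costSplay T X : ℝ) ≤ startUp w T +
        (X.map fun x => 2 + 3 * (Real.logb 2 (weight w T) - Real.logb 2 (w x))).sum ∧
      ∀ E : Finset ℕ, (∀ a, a ∉ E → w a = 0) → 1 ≤ weight w T →
        startUp w T ≤ ancs E T * (2 + Real.logb 2 (weight w T)) := by
  refine ⟨fun c hc => R531.Spl.ancs_le_exec hc hT, R531.Spl.competitive hT X hX, ?_, ?_⟩
  · have := R531.Spl.workingSet hT X hX
    linarith
  · intro w hw hwX
    refine ⟨?_, ?_⟩
    · have h := R531.Spl.total (w := w) hw X T hT (fun x hx => ⟨hX x hx, hwX x hx⟩)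
      rw [startUp_eq, weight_eq] at h
      exact h
    · intro E hE h1
      have h := R531.Spl.P_le (w := w) hw hE h1 T (by rw [weight_eq])
      rw [startUp_eq] at h
      exact h

end Pool.Agent.Results.MP_c42954_lc.StartUpCost
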